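import Pool.Agent.H71.GC.HMain

/-!
# MP_f0f0c5_ag: Q1 for Fano manifolds of hypergeometric type
-/

namespace Pool.Agent.Results.MP_f0f0c5_ag.HypergeometricIntersections

open Pool.Agent.H71.GC Filter Topology

/-- Let `Y` be a Fano manifold of hypergeometric type, for example a smooth Fano complete
intersection of Cartier divisors in a product of weighted projective spaces, or a cyclic cover of a
product of projective spaces. Then `J_Y(t) / G_Y(t)` converges to the Gamma class; at any simple
rightmost eigenvalue the principal asymptotic class is the Gamma class; and Q1 holds for `Y`. -/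
theorem result {ι J κ : Type} [Fintype ι] [Fintype J] [Fintype κ] (P : HyperCI ι J κ) :
    Tendsto (fun t => (P.Y.G t)⁻¹ • P.Y.Jfun t) atTop (𝓝 P.Y.gammaClass) ∧
      (∀ u : ℂ, P.Y.SimpleRightmost u → P.Y.PrincipalIsGamma u) ∧ P.Y.Q1 := by
  obtain ⟨ν, hν⟩ := P.main_limit
  obtain ⟨h1, h2⟩ := conclude P.Y hν
  exact ⟨h1, h2, fun hO => h2 _ hO⟩

end Pool.Agent.Results.MP_f0f0c5_ag.HypergeometricIntersections
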