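import Pool.Agent.H71.GC.LimA

/-!
# MP_f0f0c5_ag: the Gamma class as the limit of a hypergeometric series
-/

namespace Pool.Agent.Results.MP_f0f0c5_ag.HypergeometricLimit

open Filter Topology Finset NormedSpace Pool.Agent.H71.GC

section

variable {A : Type} [NormedCommRing A] [NormedAlgebra ℝ A]
variable {ι J κ : Type} [Fintype ι] [Fintype J] [Fintype κ]

/-- The hypergeometric series `t^(∑ i_k h_k) ∑_d t^(i . d) ∏_j ∏_(m ≤ L_j(d)) (m + L_j) /
∏_i ∏_(m ≤ D_i(d)) (m + D_i)`, `d ∈ ℕ^κ`. -/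
noncomputable def series (w : ι → κ → ℕ) (a : J → κ → ℕ) (h : κ → A) (t : ℝ) : A :=
  exp (Real.log t • cls h (ind w a)) *
    ∑' d : κ → ℕ, (t ^ dot (ind w a) d) • (num a h d * Ring.inverse (num w h d))

/-- The scalar part `∑_d t^(i . d) ∏_j L_j(d)! / ∏_i D_i(d)!`. -/
noncomputable def scalar (w : ι → κ → ℕ) (a : J → κ → ℕ) (t : ℝ) : ℝ :=
  ∑' d : κ → ℕ, t ^ dot (ind w a) d *
    (∏ j, ((dot (a j) d).factorial : ℝ)) / ∏ i, ((dot (w i) d).factorial : ℝ)

/-- `log Γ(1 + x) = -γ x + ∑_(m ≥ 2) (-1)^m ζ(m) x^m / m` if `x ^ (N + 1) = 0`. -/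
noncomputable def logGam (N : ℕ) (x : A) : A := -(Real.eulerMascheroniConstant • x) +
  ∑ m ∈ Icc 2 N, ((-1 : ℝ) ^ m * (∑' n : ℕ, 1 / ((n : ℝ) + 1) ^ m) / (m : ℝ)) • x ^ m

end

variable {A : Type} [NormedCommRing A] [NormedAlgebra ℝ A] [CompleteSpace A]
variable {ι J κ : Type} [Fintype ι] [Fintype J] [Fintype κ]

/-- Let `h_k` be nilpotent elements of a complete normed commutative algebra (for example the even
cohomology of a Fano manifold), `D_i = ∑_k w_ik h_k`, `L_j = ∑_k a_jk h_k` with coefficients in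
`ℕ` and all `i_k = ∑_i w_ik - ∑_j a_jk` positive, such that every `D_i` is a multiple of one `h_k` or
dominated by an `L_j` of its own. Then the hypergeometric series divided by its scalar part
converges to `∏_i Γ(1 + D_i) / ∏_j Γ(1 + L_j)` for `t → +∞`. -/
theorem result (w : ι → κ → ℕ) (a : J → κ → ℕ) (h : κ → A) (N : ℕ)
    (hN : ∀ v : κ → ℕ, cls h v ^ (N + 1) = 0) (hw : ∀ i, ∃ k, 1 ≤ w i k)
    (ha : ∀ j, ∃ k, 1 ≤ a j k) (hi : ∀ k, ∑ j, a j k < ∑ i, w i k) (hM : Matched w a) :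
    Tendsto (fun t : ℝ => (scalar w a t)⁻¹ • series w a h t) atTop
      (𝓝 (exp (∑ i, logGam N (cls h (w i)) - ∑ j, logGam N (cls h (a j))))) := by
  classical
  have hh : ∀ k, h k ^ (N + 1) = 0 := by
    intro k
    have h1 := hN (Pi.single k 1)
    have h2 : cls h (Pi.single k 1) = h k := by
      unfold cls
      rw [sum_eq_single k]
      · simp
      · intro l _ hl
        simp [Pi.single_eq_of_ne hl]
      · intro hk
        exact absurd (mem_univ k) hk
    rwa [h2] at h1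
  have hi' : ∀ k, 1 ≤ ind w a k := fun k => by
    have := hi k
    unfold ind
    omega
  have hlim := lim_alg hN hh hM hi' hw ha
  have hg : exp (∑ i, logGam N (cls h (w i)) - ∑ j, logGam N (cls h (a j))) * gfac w a h N = 1 := by
    unfold gfac
    have h1 : ∏ j, Pool.Agent.H75.GC.gam N (cls h (a j)) = exp (∑ j, logGam N (cls h (a j))) := by
      rw [← eprod]
      rfl
    have h2 : ∏ i, Ring.inverse (Pool.Agent.H75.GC.gam N (cls h (w i))) =
        exp (∑ i, -(logGam N (cls h (w i)))) := by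
      rw [← eprod]
      exact prod_congr rfl fun i _ => inv_eexp _
    rw [h1, h2, ← Pool.Agent.H75.GC.eadd, ← Pool.Agent.H75.GC.eadd, sum_neg_distrib]
    have h3 : ∑ i, logGam N (cls h (w i)) - ∑ j, logGam N (cls h (a j))
        + (∑ j, logGam N (cls h (a j)) + -∑ i, logGam N (cls h (w i))) = 0 := by
      abel
    rw [h3, exp_zero]
  have h2 := hlim.const_mul (exp (∑ i, logGam N (cls h (w i)) - ∑ j, logGam N (cls h (a j))))
  rw [mul_one] at h2
  refine h2.congr fun t => ?_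
  rw [mul_smul_comm, ← mul_assoc, hg, one_mul]
  rfl

end Pool.Agent.Results.MP_f0f0c5_ag.HypergeometricLimit
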