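import Pool.Agent.H71.GC.Main

/-!
# MP_f0f0c5_ag: Q1 for complete intersections of nef partitions in toric manifolds
-/

namespace Pool.Agent.Results.MP_f0f0c5_ag.NefPartitions

open Pool.Agent.H71.GC

/-- Let `Y` be a smooth complete intersection given by a nef partition in a smooth projective toric
variety, with `L_0` ample. Then `T_A,con ≤ W - c` on the whole positive locus `C_+` of the mirror,
and if `Y` has Property `O_A`, the principal asymptotic class is the Gamma class. -/
theorem result (P : ToricCI) :
    (∀ x ∈ P.D.Cplus, P.Y.TAcon ≤ P.D.W x - P.D.coef 1) ∧ P.Y.Q1 :=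
  ⟨fun _ hx => P.TAcon_le hx, P.q1⟩

end Pool.Agent.Results.MP_f0f0c5_ag.NefPartitions
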