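import Pool.Agent.H75.GC.Main
import Pool.Agent.H67.GC.Int
import Pool.Agent.H32.GC.Bad

/-!
# Q1 for complete intersections in products of Fano manifolds

`Y ⊂ X_1 × ⋯ × X_K` is a smooth complete intersection of divisors whose classes are non negative
combinations of the classes `h_k = c_1(X_k) / r_k`, and `c_1(Y) = ∑ (r_k - a_k) h_k` with
`a_k < r_k`. If on every factor the principal asymptotic class is the Gamma class (at a simple
rightmost eigenvalue `T > 0`), then `J_Y(t) / G_Y(t)` converges to the Gamma class of `Y`, and Q1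
holds for `Y`.
-/

namespace Pool.Agent.Results.MP_f0f0c5_ag.ProductIntersections

open Pool.Agent.H75.GC Filter Topology

/-- The limit of the `J`-function, the principal class at any simple rightmost eigenvalue, and Q1. -/
theorem result {ι κ : Type} [Fintype ι] [Fintype κ] (P : Intersection ι κ)
    (h : ∀ k, (P.X k).Good) :
    Tendsto (fun t => (P.Y.G t)⁻¹ • P.Y.Jfun t) atTop (𝓝 P.Y.gammaClass) ∧
      (∀ u : ℂ, P.Y.SimpleRightmost u → P.Y.PrincipalIsGamma u) ∧ P.Y.Q1 := by
  obtain ⟨ν, hν⟩ := P.main_limit (fun e he => tau_le P.a P.r P.deg he) h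
    (fun b δ T hb hbK hδ hT t ht => W_integrable P.a P.r P.deg hb hbK δ T hδ hT ht)
    (fun b δ T hb hbK hδ hT R e he => bad_small P.a P.r P.deg hb hbK δ T hδ hT R he)
  obtain ⟨h1, h2⟩ := P.conclude hν
  exact ⟨h1, h2, fun hO => h2 _ hO⟩

end Pool.Agent.Results.MP_f0f0c5_ag.ProductIntersections
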